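import Pool.Agent.P.MP_9bb6b5_al.Basic

set_option autoImplicit false

namespace Pool.Agent.Results.MP_9bb6b5_al.TotallyReal

open Polynomial Finset Pool.Agent.P.MP_9bb6b5_al

/-- The conjecture holds when the coefficients of `P` are totally real. -/
theorem result (P Q : ℝ[X]) (hP : P.Monic) (hQ : Q.Monic) (hp : ∀ i, 0 ≤ P.coeff i)
    (hq : ∀ i, 0 ≤ Q.coeff i) (hR : ∀ i, (P * Q).coeff i = 0 ∨ (P * Q).coeff i = 1)
    (htr : ∀ i, ((minpoly ℚ (P.coeff i)).map (algebraMap ℚ ℝ)).Splits) :
    (∀ i, P.coeff i = 0 ∨ P.coeff i = 1) ∧ ∀ i, Q.coeff i = 0 ∨ Q.coeff i = 1 := by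
  refine zero_one_of_card_le hP hQ hp hq hR ?_
  obtain ⟨K, _, P', Q', rfl, rfl, iP, iQ⟩ := exists_numberField hP hQ hR
  have inj := (algebraMap K ℝ).injective
  have P0 : P' ≠ 0 := fun h => hP.ne_zero (by simp [h])
  have Q0 : Q' ≠ 0 := fun h => hQ.ne_zero (by simp [h])
  rw [mirror_map inj, ← Polynomial.map_mul, ← Polynomial.map_mul, support_map_of_injective _ inj,
    support_map_of_injective _ inj]
  have hR' : ∀ i, (P' * Q').coeff i = 0 ∨ (P' * Q').coeff i = 1 := fun i => by
    have := hR i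
    rwa [← Polynomial.map_mul, coeff_map, map_eq_zero_iff _ inj, map_eq_one_iff _ inj] at this
  have h1 := sum_sq_mul_mirror P0 Q0
  rw [sum_congr (s₁ := (P' * Q').support) rfl (g := fun _ => (1 : K)) fun d hd => by
    rw [(hR' d).resolve_left (mem_support_iff.1 hd), one_pow]] at h1
  simp only [sum_const, nsmul_eq_mul, mul_one] at h1
  have iS : ∀ d, IsIntegral ℤ ((P' * Q'.mirror).coeff d) := fun d => by
    rw [coeff_mul]
    exact IsIntegral.sum _ fun x _ => (iP _).mul (by rw [coeff_mirror]; exact iQ _)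
  have real : ∀ (σ : K →ₐ[ℚ] ℂ) d, starRingEnd ℂ (σ ((P' * Q'.mirror).coeff d)) =
      σ ((P' * Q'.mirror).coeff d) := by
    intro σ d
    let τ : K →+* ℂ := (starRingEnd ℂ).comp σ
    have a1 : P'.map τ = P'.map σ := by
      ext i
      have := htr i
      rw [coeff_map, minpoly.algebraMap_eq inj, ← minpoly.algHom_eq σ σ.injective] at this
      obtain ⟨y, hy⟩ := IsIntegral.mem_range_algebraMap_of_minpoly_splits
        (((iP i).tower_top (A := ℚ)).map σ) this
      simp [τ, ← hy]
    have a2 : (P' * Q').map τ = (P' * Q').map σ := by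
      ext i
      rcases hR' i with h | h <;> rw [coeff_map, coeff_map, h] <;> simp
    rw [Polynomial.map_mul, Polynomial.map_mul, a1] at a2
    have a3 := mul_left_cancel₀ (Polynomial.map_ne_zero P0) a2
    have a4 : (P' * Q'.mirror).map τ = (P' * Q'.mirror).map σ := by
      rw [Polynomial.map_mul, Polynomial.map_mul, a1, ← mirror_map τ.injective, a3,
        mirror_map (RingHom.injective _)]
    have := congrArg (coeff · d) a4
    simp only [coeff_map] at this
    exact this
  have h2 : ∀ σ : K →ₐ[ℚ] ℂ, ∑ d ∈ (P' * Q'.mirror).support,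
      ‖σ ((P' * Q'.mirror).coeff d)‖ ^ 2 = (P' * Q').support.card := by
    intro σ
    have := congrArg σ h1
    rw [map_sum, map_natCast] at this
    apply Complex.ofReal_injective
    push_cast
    rw [← this]
    exact sum_congr rfl fun d _ => by rw [← Complex.mul_conj', real, map_pow, sq]
  have h3 : ∀ d ∈ (P' * Q'.mirror).support, ((univ : Finset (K →ₐ[ℚ] ℂ)).card : ℝ) ≤
      ∑ σ : K →ₐ[ℚ] ℂ, ‖σ ((P' * Q'.mirror).coeff d)‖ ^ 2 := fun d hd =>
    card_le_sum_of_one_le_prod _ (fun _ => sq_nonneg _) (by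
      rw [prod_pow]
      exact one_le_pow₀ (one_le_prod_norm (iS d) (mem_support_iff.1 hd)))
  have h4 := sum_le_sum h3
  rw [sum_comm] at h4
  simp only [h2, sum_const, nsmul_eq_mul] at h4
  have h5 : (0 : ℝ) < (univ : Finset (K →ₐ[ℚ] ℂ)).card := by
    rw [card_univ, AlgHom.card]
    exact_mod_cast Module.finrank_pos
  rw [mul_comm] at h4
  exact_mod_cast le_of_mul_le_mul_left h4 h5

end Pool.Agent.Results.MP_9bb6b5_al.TotallyReal
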