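import Pool.Agent.P.MP_9bb6b5_al.ThreeTerms

set_option autoImplicit false

namespace Pool.Agent.Results.MP_9bb6b5_al.AllTrinomials

open Polynomial Finset Pool.Agent.P.MP_9bb6b5_al

/-- The conjecture holds whenever one of the two factors has at most three terms. -/
theorem result (P Q : ℝ[X]) (hP : P.Monic) (hQ : Q.Monic) (hp : ∀ i, 0 ≤ P.coeff i)
    (hq : ∀ i, 0 ≤ Q.coeff i) (hR : ∀ i, (P * Q).coeff i = 0 ∨ (P * Q).coeff i = 1)
    (h3 : P.support.card ≤ 3) :
    (∀ i, P.coeff i = 0 ∨ P.coeff i = 1) ∧ ∀ i, Q.coeff i = 0 ∨ Q.coeff i = 1 := by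
  suffices h : ∀ i, P.coeff i = 0 ∨ P.coeff i = 1 from ⟨h, zero_one_right hP hq hR h⟩
  intro j
  by_contra hc
  push Not at hc
  have t1 := trailing_eq_one hP hQ hp hq hR
  have t2 := hP.coeff_natDegree
  have l1 : P.natTrailingDegree < j := lt_of_le_of_ne (natTrailingDegree_le_of_ne_zero hc.1)
    fun h => hc.2 (h ▸ t1)
  have l2 : j < P.natDegree := lt_of_le_of_ne (le_natDegree_of_ne_zero hc.1)
    fun h => hc.2 (h ▸ t2)
  generalize P.natTrailingDegree = i at *
  generalize P.natDegree = n at *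
  obtain ⟨k, rfl⟩ := Nat.exists_eq_add_of_le l1.le
  obtain ⟨n, rfl⟩ := Nat.exists_eq_add_of_le (l1.trans l2).le
  have hs : ({i, i + k, i + n} : Finset ℕ) = P.support := by
    refine eq_of_subset_of_card_le (fun x hx => ?_) ?_
    · simp only [mem_insert, mem_singleton] at hx
      rcases hx with rfl | rfl | rfl <;> simp [t1, t2, hc.1]
    · rwa [card_eq_three.2 ⟨i, i + k, i + n, l1.ne, (l1.trans l2).ne, l2.ne, rfl⟩]
  have e : P = (1 + C (P.coeff (i + k)) * X ^ k + X ^ n) * X ^ i := by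
    conv_lhs => rw [P.as_sum_support_C_mul_X_pow, ← hs]
    rw [sum_insert (by simp; omega), sum_pair l2.ne, t1, t2, map_one]
    ring
  have := tri_zero_one (a := P.coeff (i + k)) (k := k) (n := n) (Q := X ^ i * Q) (by omega)
    (by omega) (hp _) ((monic_X_pow i).mul hQ) (fun d => by
      rw [coeff_X_pow_mul']
      split_ifs
      exacts [hq _, le_rfl]) (by rwa [← mul_assoc, ← e])
  tauto

end Pool.Agent.Results.MP_9bb6b5_al.AllTrinomials
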