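import Pool.Agent.P.MP_9bb6b5_al.Sym

set_option autoImplicit false

namespace Pool.Agent.Results.MP_9bb6b5_al.Palindromic

open Polynomial Finset Pool.Agent.P.MP_9bb6b5_al

/-- The conjecture holds whenever the coefficient string of the product reads the same from both
ends up to half the length of one factor; in particular for every palindromic product. -/
theorem result (P Q : ℝ[X]) (hP : P.Monic) (hQ : Q.Monic) (hp : ∀ i, 0 ≤ P.coeff i)
    (hq : ∀ i, 0 ≤ Q.coeff i) (hR : ∀ i, (P * Q).coeff i = 0 ∨ (P * Q).coeff i = 1)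
    (hs : ∀ j, 2 * j ≤ P.natDegree - P.natTrailingDegree →
      (P * Q).coeff ((P * Q).natTrailingDegree + j) = (P * Q).coeff ((P * Q).natDegree - j)) :
    (∀ i, P.coeff i = 0 ∨ P.coeff i = 1) ∧ ∀ i, Q.coeff i = 0 ∨ Q.coeff i = 1 := by
  suffices h : ∀ i, P.coeff i = 0 ∨ P.coeff i = 1 from ⟨h, zero_one_right hP hq hR h⟩
  have hR' : ∀ i, (Q * P).coeff i = 0 ∨ (Q * P).coeff i = 1 := by rwa [mul_comm]
  obtain ⟨A, hA⟩ : X ^ P.natTrailingDegree ∣ P :=
    X_pow_dvd_iff.2 fun d hd => coeff_eq_zero_of_lt_natTrailingDegree hd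
  obtain ⟨B, hB⟩ : X ^ Q.natTrailingDegree ∣ Q :=
    X_pow_dvd_iff.2 fun d hd => coeff_eq_zero_of_lt_natTrailingDegree hd
  have cA : ∀ j, A.coeff j = P.coeff (j + P.natTrailingDegree) := fun j => by
    rw [← coeff_X_pow_mul A P.natTrailingDegree j, ← hA]
  have cB : ∀ j, B.coeff j = Q.coeff (j + Q.natTrailingDegree) := fun j => by
    rw [← coeff_X_pow_mul B Q.natTrailingDegree j, ← hB]
  have cR : ∀ j, (A * B).coeff j = (P * Q).coeff ((P * Q).natTrailingDegree + j) := fun j => by
    rw [← coeff_X_pow_mul (A * B) (P * Q).natTrailingDegree j, add_comm,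
      natTrailingDegree_mul hP.ne_zero hQ.ne_zero, pow_add, mul_mul_mul_comm, ← hA, ← hB]
  have le := P.natTrailingDegree_le_natDegree
  have key := sym_core (A := A) (B := B) (A' := P.reverse) (B' := Q.reverse)
    (J := (P.natDegree - P.natTrailingDegree) / 2)
    (by rw [cA, zero_add, trailing_eq_one hP hQ hp hq hR])
    (by rw [cB, zero_add, trailing_eq_one hQ hP hq hp hR'])
    (by rw [coeff_zero_reverse, hP.leadingCoeff]) (by rw [coeff_zero_reverse, hQ.leadingCoeff])
    (fun i => by rw [cA]; exact hp _) (fun i => by rw [cB]; exact hq _)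
    (fun i => by rw [coeff_reverse]; exact hp _) (fun i => by rw [coeff_reverse]; exact hq _)
    (fun i => by rw [cR]; exact hR _)
    (fun j hj => by
      rw [cR, hs j (by omega), ← reverse_mul_of_domain, coeff_reverse, revAt_le]
      rw [hP.natDegree_mul hQ]
      omega)
    (fun j hj => by rw [cB]; exact sym_pure hP hQ hp hq hR hj)
    (fun j hj => by rw [cA, mul_comm]; exact sym_pure hQ hP hq hp hR' hj)
  intro i
  rcases lt_or_ge i P.natTrailingDegree with c | c
  · exact Or.inl (coeff_eq_zero_of_lt_natTrailingDegree c)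
  rcases lt_or_ge P.natDegree i with d | d
  · exact Or.inl (coeff_eq_zero_of_natDegree_lt d)
  rcases le_or_gt (i - P.natTrailingDegree) ((P.natDegree - P.natTrailingDegree) / 2) with e | e
  · have := (key _ e).2.2.1
    rwa [cA, Nat.sub_add_cancel c] at this
  · have := key (P.natDegree - i) (by omega)
    have t := this.2.2.1
    rwa [← this.1, coeff_reverse, revAt_le (by omega), Nat.sub_sub_self d] at t

end Pool.Agent.Results.MP_9bb6b5_al.Palindromic
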