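import Pool.Agent.P.MP_9bb6b5_al.Basic

set_option autoImplicit false

namespace Pool.Agent.Results.MP_9bb6b5_al.SumDifference

open Polynomial Finset Pointwise Pool.Agent.P.MP_9bb6b5_al

/-- The factors are 0,1 polynomials iff their supports have no more differences than sums. -/
theorem result (P Q : ℝ[X]) (hP : P.Monic) (hQ : Q.Monic) (hp : ∀ i, 0 ≤ P.coeff i)
    (hq : ∀ i, 0 ≤ Q.coeff i) (hR : ∀ i, (P * Q).coeff i = 0 ∨ (P * Q).coeff i = 1) :
    ((∀ i, P.coeff i = 0 ∨ P.coeff i = 1) ∧ ∀ i, Q.coeff i = 0 ∨ Q.coeff i = 1) ↔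
      (P.support.image (Nat.cast : ℕ → ℤ) - Q.support.image (Nat.cast : ℕ → ℤ)).card ≤
        (P.support.image (Nat.cast : ℕ → ℤ) + Q.support.image (Nat.cast : ℕ → ℤ)).card := by
  have pos : ∀ {T : ℝ[X]}, (∀ i, 0 ≤ T.coeff i) → ∀ i ∈ T.support, 0 < T.coeff i :=
    fun h i hi => lt_of_le_of_ne (h i) (mem_support_iff.1 hi).symm
  constructor
  · rintro ⟨h1, h2⟩
    refine card_sub_le.trans (card_add_iff.2 ?_).ge
    rintro ⟨_, _⟩ ⟨hi, hj⟩ ⟨_, _⟩ ⟨hi', hj'⟩ h
    simp only [coe_image, Set.mem_image, mem_coe] at hi hj hi' hj' h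
    obtain ⟨i, hi, rfl⟩ := hi
    obtain ⟨j, hj, rfl⟩ := hj
    obtain ⟨i', hi', rfl⟩ := hi'
    obtain ⟨j', hj', rfl⟩ := hj'
    have e : i + j = i' + j' := by exact_mod_cast h
    obtain rfl : i = i' := by
      by_contra hne
      have := coeff_mul_ge_two hp hq e hne
      rw [(h1 i).resolve_left (mem_support_iff.1 hi), (h1 i').resolve_left (mem_support_iff.1 hi'),
        (h2 j).resolve_left (mem_support_iff.1 hj), (h2 j').resolve_left (mem_support_iff.1 hj')]
        at this
      rcases hR (i + j) with c | c <;> linarith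
    rw [add_left_cancel e]
  · intro h
    refine zero_one_of_card_le hP hQ hp hq hR (le_trans ?_ (h.trans ?_))
    · refine card_le_card_of_injOn (fun d => (d : ℤ) - (Q.natDegree + Q.natTrailingDegree : ℕ))
        (fun d hd => ?_) fun d _ d' _ e => by simpa using e
      have h1 := mem_support_iff.1 (mem_coe.1 hd)
      rw [coeff_mul] at h1
      obtain ⟨x, hx, h2⟩ := exists_ne_zero_of_sum_ne_zero h1
      have h3 := HasAntidiagonal.mem_antidiagonal.1 hx
      have h4 : x.2 ≤ Q.natDegree := mirror_natDegree Q ▸ le_natDegree_of_ne_zero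
        (right_ne_zero_of_mul h2)
      rw [coeff_mirror, revAt_le (by omega)] at h2
      refine mem_coe.2 (mem_sub.2 ⟨_, mem_image_of_mem _ (mem_support_iff.2 (left_ne_zero_of_mul h2)),
        _, mem_image_of_mem _ (mem_support_iff.2 (right_ne_zero_of_mul h2)), ?_⟩)
      simp only
      omega
    · refine le_trans (card_le_card (t := (P * Q).support.image (Nat.cast : ℕ → ℤ)) fun s hs => ?_)
        card_image_le
      obtain ⟨_, hi', _, hj', rfl⟩ := mem_add.1 hs
      obtain ⟨i, hi, rfl⟩ := mem_image.1 hi'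
      obtain ⟨j, hj, rfl⟩ := mem_image.1 hj'
      exact mem_image.2 ⟨i + j, mem_support_iff.2
        ((mul_pos (pos hp i hi) (pos hq j hj)).trans_le (coeff_mul_ge hp hq i j)).ne', by simp⟩

end Pool.Agent.Results.MP_9bb6b5_al.SumDifference
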